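import Mathlib

namespace Pool.Agent.Results.MP_6677ae_co.Counter
open Finset

variable {n : ℕ}

/-- One round of the spread rule with proportion `p`. -/
noncomputable def spread (p : ℝ) (E : Finset (Finset (Fin n))) (F : Finset (Fin n)) :
    Finset (Fin n) :=
  F ∪ (E.filter fun e => ⌈p * e.card⌉₊ ≤ (e ∩ F).card).biUnion id

/-- The burning set after `r` rounds when the player chooses `u 0, u 1, ...`. -/
noncomputable def fire (p : ℝ) (E : Finset (Finset (Fin n))) (u : ℕ → Fin n) : ℕ → Finset (Fin n)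
  | 0 => ∅
  | r + 1 => insert (u r) (spread p E (fire p E u r))

/-- The round-based burning number. -/
noncomputable def burn (p : ℝ) (E : Finset (Finset (Fin n))) : ℕ :=
  sInf {k | ∃ u : ℕ → Fin n, (∀ r < k, u r ∉ fire p E u r) ∧ fire p E u k = univ}

/-- The lazy burning number. -/
noncomputable def lazyBurn (p : ℝ) (E : Finset (Finset (Fin n))) : ℕ :=
  sInf {k | ∃ S : Finset (Fin n), S.card = k ∧ ∃ t, (spread p E)^[t] S = univ}

def H : Finset (Finset (Fin 5)) := {{0, 1}, {1, 2}, {2, 3}, {3, 4}, univ}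

def sp (a : ℕ) (F : Finset (Fin 5)) : Finset (Fin 5) :=
  F ∪ (H.filter fun e => (if e.card = 2 then 1 else a) ≤ (e ∩ F).card).biUnion id

lemma eq (p : ℝ) (a : ℕ) (h2 : ⌈p * 2⌉₊ = 1) (h5 : ⌈p * 5⌉₊ = a) : spread p H = sp a := by
  ext1 F
  unfold spread sp
  congr 2
  refine filter_congr fun e he => ?_
  have : e.card = 2 ∨ e.card = 5 := by revert e; decide
  rcases this with q | q <;> rw [q] <;> simp [h2, h5]

lemma lz (p : ℝ) (a : ℕ) (ha : a = 1 ∨ a = 3) (h : spread p H = sp a) : lazyBurn p H = 1 := by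
  apply IsLeast.csInf_eq
  rw [h]
  refine ⟨⟨{2}, rfl, 2, by rcases ha with rfl | rfl <;> decide⟩, ?_⟩
  rintro k ⟨S, rfl, t, ht⟩
  by_contra q
  have : S = ∅ := card_eq_zero.1 (by omega)
  rw [this, Function.iterate_fixed (by rcases ha with rfl | rfl <;> decide)] at ht
  exact absurd ht (by decide)

theorem result : ¬ ∀ (n : ℕ) (E : Finset (Finset (Fin (n + 1)))) (p q : ℝ), 0 < p → p < 1 →
    0 < q → q < 1 → lazyBurn p E = lazyBurn q E → burn p E = burn q E := by
  intro h
  have e1 := eq (1 / 5) 1 (by rw [Nat.ceil_eq_iff] <;> norm_num) (by norm_num)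
  have e2 := eq (1 / 2) 3 (by norm_num) (by rw [Nat.ceil_eq_iff] <;> norm_num)
  have := h 4 H (1 / 5) (1 / 2) (by norm_num) (by norm_num) (by norm_num) (by norm_num)
    (by rw [lz _ _ (Or.inl rfl) e1, lz _ _ (Or.inr rfl) e2])
  have b1 : burn (1 / 5) H ≤ 2 := Nat.sInf_le ⟨fun r => if r = 0 then 0 else 1, by
    intro r hr
    interval_cases r <;> simp only [fire, e1] <;> decide, by simp only [fire, e1]; decide⟩
  have b2 : burn (1 / 2) H = 3 := by
    apply IsLeast.csInf_eq
    refine ⟨⟨fun r => if r = 0 then 2 else if r = 1 then 1 else 0, by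
      intro r hr
      interval_cases r <;> simp only [fire, e2] <;> decide, by simp only [fire, e2]; decide⟩, ?_⟩
    rintro k ⟨u, -, hu⟩
    by_contra q
    have : k < 3 := by omega
    interval_cases k <;> simp only [fire, e2] at hu <;> revert hu
    · decide
    · generalize u 0 = a; revert a; decide
    · generalize u 0 = a; generalize u 1 = b; revert a b; decide
  omega

end Pool.Agent.Results.MP_6677ae_co.Counter
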